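import Mathlib
import Pool.Agent.H82.NP.Targets

/-!
# Calculus of Taylor coefficients (`MP_ff17e6_an`)
-/

set_option autoImplicit false

open Metric Set Filter Topology Polynomial

namespace Pool.Agent.H42.NP

open Pool.Agent.H82.Hp (co)
open Pool.Agent.H82.NP

lemma co_mul {f g : ℂ → ℂ} (hf : AnalyticAt ℂ f 0) (hg : AnalyticAt ℂ g 0) (m : ℕ) :
    co (fun z => f z * g z) m = ∑ j ∈ Finset.range (m + 1), co f j * co g (m - j) := by
  unfold co
  rw [iteratedDeriv_fun_mul hf.contDiffAt hg.contDiffAt, Finset.sum_div]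
  apply Finset.sum_congr rfl
  intro j hj
  rw [Finset.mem_range] at hj
  have h1 : ((m.choose j : ℕ) : ℂ) = (m.factorial : ℂ) / ((j.factorial : ℂ) * ((m - j).factorial : ℂ)) := by
    have h := Nat.choose_mul_factorial_mul_factorial (show j ≤ m by omega)
    have h2 : ((m.choose j : ℕ) : ℂ) * (j.factorial : ℂ) * ((m - j).factorial : ℂ) = (m.factorial : ℂ) := by
      exact_mod_cast h
    have h3 : (j.factorial : ℂ) ≠ 0 := by exact_mod_cast Nat.factorial_ne_zero j
    have h4 : ((m - j).factorial : ℂ) ≠ 0 := by exact_mod_cast Nat.factorial_ne_zero (m - j)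
    field_simp
    linear_combination h2
  rw [h1]
  have h3 : (j.factorial : ℂ) ≠ 0 := by exact_mod_cast Nat.factorial_ne_zero j
  have h4 : ((m - j).factorial : ℂ) ≠ 0 := by exact_mod_cast Nat.factorial_ne_zero (m - j)
  have h5 : (m.factorial : ℂ) ≠ 0 := by exact_mod_cast Nat.factorial_ne_zero m
  field_simp

lemma co_const_mul (c : ℂ) (f : ℂ → ℂ) (m : ℕ) : co (fun z => c * f z) m = c * co f m := by
  unfold co
  rw [iteratedDeriv_const_mul_field, mul_div_assoc]

lemma co_add {f g : ℂ → ℂ} (hf : AnalyticAt ℂ f 0) (hg : AnalyticAt ℂ g 0) (m : ℕ) :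
    co (fun z => f z + g z) m = co f m + co g m := by
  unfold co
  rw [iteratedDeriv_fun_add hf.contDiffAt hg.contDiffAt, add_div]

lemma co_sum {ι : Type*} (s : Finset ι) {f : ι → ℂ → ℂ} (hf : ∀ i ∈ s, AnalyticAt ℂ (f i) 0) (m : ℕ) :
    co (fun z => ∑ i ∈ s, f i z) m = ∑ i ∈ s, co (f i) m := by
  unfold co
  rw [iteratedDeriv_fun_sum (fun i hi => (hf i hi).contDiffAt), Finset.sum_div]

lemma co_const (c : ℂ) (m : ℕ) : co (fun _ => c) m = if m = 0 then c else 0 := by
  unfold co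
  rw [iteratedDeriv_const]
  split_ifs with h
  · subst h; simp
  · simp

lemma co_pow (j m : ℕ) : co (fun z => z ^ j) m = if m = j then 1 else 0 := by
  unfold co
  rw [iteratedDeriv_fun_pow_zero]
  split_ifs with h
  · subst h
    have : (m.factorial : ℂ) ≠ 0 := by exact_mod_cast Nat.factorial_ne_zero m
    field_simp
  · simp

lemma co_poly (G : ℂ[X]) (m : ℕ) : co (fun z => G.eval z) m = G.coeff m := by
  have h1 : (fun z => G.eval z) = fun z => ∑ j ∈ Finset.range (G.natDegree + 1), G.coeff j * z ^ j := by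
    funext z
    exact eval_eq_sum_range z
  rw [h1, co_sum _ (fun j _ => by fun_prop)]
  simp_rw [co_const_mul, co_pow]
  simp only [mul_ite, mul_one, mul_zero]
  rw [Finset.sum_ite_eq]
  split_ifs with h
  · rfl
  · rw [Finset.mem_range] at h
    exact (coeff_eq_zero_of_natDegree_lt (by omega)).symm

lemma one_sub_ne {a z : ℂ} (ha : ‖a‖ ≤ 1) (hz : ‖z‖ < 1) : 1 - a * z ≠ 0 := by
  intro h
  have h1 : a * z = 1 := by linear_combination -h
  have h2 : ‖a * z‖ = 1 := by rw [h1, norm_one]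
  rw [norm_mul] at h2
  have h3 : ‖a‖ * ‖z‖ ≤ 1 * ‖z‖ := mul_le_mul_of_nonneg_right ha (norm_nonneg z)
  linarith

lemma diff_geom {a : ℂ} (ha : ‖a‖ ≤ 1) : DifferentiableOn ℂ (fun z => (1 - a * z)⁻¹) (ball 0 1) := by
  intro z hz
  have h1 : 1 - a * z ≠ 0 := one_sub_ne ha (by simpa using hz)
  have h2 : DifferentiableAt ℂ (fun z => 1 - a * z) z := by fun_prop
  exact (h2.inv h1).differentiableWithinAt

lemma co_geom {a : ℂ} (ha : ‖a‖ ≤ 1) (m : ℕ) : co (fun z => (1 - a * z)⁻¹) m = a ^ m := by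
  have hA : AnalyticAt ℂ (fun z : ℂ => (1 - a * z)⁻¹) 0 := Pool.Agent.H82.Hp.analyticAt_zero (diff_geom ha)
  have hB : AnalyticAt ℂ (fun z : ℂ => z) 0 := by fun_prop
  induction m with
  | zero => rw [Pool.Agent.H82.Hp.co_zero]; simp
  | succ m ih =>
    have h1 : EqOn (fun z : ℂ => (1 - a * z)⁻¹) (fun z => 1 + a * (z ^ 1 * (1 - a * z)⁻¹)) (ball 0 1) := by
      intro z hz
      have h1 : 1 - a * z ≠ 0 := one_sub_ne ha (by simpa using hz)
      simp only
      field_simp
      ring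
    rw [Pool.Agent.H82.Hp.co_congr h1, co_add (by fun_prop) ?_, co_const, co_const_mul,
      co_mul (by fun_prop) hA]
    · rw [if_neg (Nat.succ_ne_zero m)]
      simp_rw [co_pow]
      rw [Finset.sum_eq_single 1]
      · rw [if_pos rfl, Nat.add_sub_cancel, ih]
        ring
      · intro b _ hb
        rw [if_neg hb, zero_mul]
      · intro h
        exfalso
        apply h
        rw [Finset.mem_range]
        omega
    · have : AnalyticAt ℂ (fun z : ℂ => z ^ 1) 0 := by fun_prop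
      exact analyticAt_const.mul (this.mul hA)

/-- the Herglotz kernel `(1 + a z) / (1 - a z)` -/
noncomputable def hk (a z : ℂ) : ℂ := 2 * (1 - a * z)⁻¹ + (-1)

lemma hk_diff {a : ℂ} (ha : ‖a‖ ≤ 1) : DifferentiableOn ℂ (hk a) (ball 0 1) := by
  have := (diff_geom ha).const_mul 2
  exact this.add_const (-1)

lemma hk_re_pos {a z : ℂ} (ha : ‖a‖ ≤ 1) (hz : ‖z‖ < 1) : 0 < (hk a z).re := by
  have h1 : 1 - a * z ≠ 0 := one_sub_ne ha hz
  have h2 : hk a z = (1 + a * z) * (1 - a * z)⁻¹ := by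
    unfold hk
    field_simp
    ring
  have hw : ‖a * z‖ < 1 := by
    rw [norm_mul]
    calc ‖a‖ * ‖z‖ ≤ 1 * ‖z‖ := mul_le_mul_of_nonneg_right ha (norm_nonneg z)
      _ < 1 := by linarith
  rw [h2]
  set w := a * z with hw'
  have h3 : ((1 + w) * (1 - w)⁻¹).re = (1 - ‖w‖ ^ 2) / Complex.normSq (1 - w) := by
    rw [← Complex.normSq_eq_norm_sq, Complex.mul_re, Complex.inv_re, Complex.inv_im]
    have : Complex.normSq (1 - w) ≠ 0 := by
      rw [Ne, Complex.normSq_eq_zero]; exact h1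
    field_simp
    rw [Complex.normSq_apply]
    simp
    ring
  rw [h3]
  apply div_pos
  · have := norm_nonneg w
    nlinarith
  · exact Complex.normSq_pos.mpr h1

lemma hk_co {a : ℂ} (ha : ‖a‖ ≤ 1) (m : ℕ) : co (hk a) m = if m = 0 then 1 else 2 * a ^ m := by
  have hA : AnalyticAt ℂ (fun z : ℂ => (1 - a * z)⁻¹) 0 := Pool.Agent.H82.Hp.analyticAt_zero (diff_geom ha)
  have h1 : co (hk a) m = co (fun z => 2 * (1 - a * z)⁻¹ + (-1)) m := rfl
  have hB : AnalyticAt ℂ (fun z : ℂ => 2 * (1 - a * z)⁻¹) 0 := analyticAt_const.mul hA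
  rw [h1, co_add hB analyticAt_const, co_const_mul, co_geom ha, co_const]
  split_ifs with h
  · subst h; norm_num
  · ring

/-- a function on the disc all of whose Taylor coefficients beyond `n` vanish is a polynomial -/
lemma eq_poly {g : ℂ → ℂ} (hg : DifferentiableOn ℂ g (ball 0 1)) {n : ℕ}
    (h : ∀ k, n < k → co g k = 0) {z : ℂ} (hz : ‖z‖ < 1) :
    g z = (∑ k ∈ Finset.range (n + 1), C (co g k) * X ^ k : ℂ[X]).eval z := by
  have hz' : z ∈ ball (0 : ℂ) 1 := by simpa using hz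
  have h1 := Complex.hasSum_taylorSeries_on_ball hg hz'
  have h2 : HasSum (fun k : ℕ => ((k.factorial : ℂ)⁻¹ • (z - 0) ^ k • iteratedDeriv k g 0))
      (∑ k ∈ Finset.range (n + 1), ((k.factorial : ℂ)⁻¹ • (z - 0) ^ k • iteratedDeriv k g 0)) := by
    apply hasSum_sum_of_ne_finset_zero
    intro k hk
    rw [Finset.mem_range, not_lt] at hk
    have h3 := h k (by omega)
    unfold co at h3
    have h4 : (k.factorial : ℂ) ≠ 0 := by exact_mod_cast Nat.factorial_ne_zero k
    rw [div_eq_zero_iff] at h3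
    rcases h3 with h3 | h3
    · rw [h3]; simp
    · exact absurd h3 h4
  rw [h1.unique h2, eval_finsetSum]
  apply Finset.sum_congr rfl
  intro k _
  simp only [eval_mul, eval_C, eval_pow, eval_X, smul_eq_mul, sub_zero]
  unfold co
  ring

end Pool.Agent.H42.NP
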