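import Mathlib
import Pool.Agent.H82.NP.Targets
import Pool.Agent.H82.NP.Trig
import Pool.Agent.H42.NP.CoLemmas

/-!
# The case `s = 1` (`MP_ff17e6_an`)
-/

set_option autoImplicit false

open Metric Set Filter Topology Polynomial

namespace Pool.Agent.H42.NP

open Pool.Agent.H82.Hp (co)
open Pool.Agent.H82.NP

lemma circleAverage_scale (F : ℂ → ℂ) (ρ R : ℝ) :
    Real.circleAverage (fun z => F ((ρ : ℂ) * z)) 0 R = Real.circleAverage F 0 (ρ * R) := by
  unfold Real.circleAverage
  congr 1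
  apply intervalIntegral.integral_congr
  intro θ _
  simp only [circleMap, zero_add]
  congr 1
  push_cast
  ring

/-- Taylor coefficients of a dilation -/
lemma co_dil {g : ℂ → ℂ} (hg : DifferentiableOn ℂ g (ball 0 1)) {ρ : ℝ} (h0 : 0 < ρ) (h1 : ρ < 1)
    (k : ℕ) : co (fun z => g ((ρ : ℂ) * z)) k = (ρ : ℂ) ^ k * co g k := by
  have hF : DifferentiableOn ℂ (fun z => g ((ρ : ℂ) * z)) (ball 0 1) := by
    apply hg.comp (by fun_prop : DifferentiableOn ℂ (fun z : ℂ => (ρ : ℂ) * z) (ball 0 1))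
    intro z hz
    rw [mem_ball_zero_iff] at hz ⊢
    rw [norm_mul, Complex.norm_real, Real.norm_of_nonneg h0.le]
    nlinarith [norm_nonneg z]
  rw [← Pool.Agent.H82.Hp.avg_div_pow hF (by norm_num : (0 : ℝ) < 1 / 2) (by norm_num) k,
    ← Pool.Agent.H82.Hp.avg_div_pow hg (by positivity : (0 : ℝ) < ρ * (1 / 2)) (by nlinarith) k,
    ← circleAverage_scale]
  rw [← smul_eq_mul, ← Real.circleAverage_fun_smul]
  congr 1
  funext z
  have : (ρ : ℂ) ≠ 0 := by exact_mod_cast h0.ne'
  rw [smul_eq_mul, mul_pow]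
  by_cases hz : z = 0
  · subst hz
    rcases Nat.eq_zero_or_pos k with hk | hk
    · subst hk; simp
    · simp [zero_pow hk.ne']
  · field_simp

/-- the Taylor coefficients of a function dominated by a polynomial -/
lemma bessel_dom (hB : T_BESSEL) (hP : T_PARS) {n : ℕ} {G : ℂ[X]} (hG : G.natDegree ≤ n)
    {g : ℂ → ℂ} (hg : DifferentiableOn ℂ g (ball 0 1))
    (hle : ∀ z : ℂ, ‖z‖ < 1 → ‖g z‖ ≤ ‖G.eval z‖) (M : ℕ) :
    ∑ k ∈ Finset.range M, ‖co g k‖ ^ 2 ≤ nrm n G := by
  have key : ∀ ρ : ℝ, 0 < ρ → ρ < 1 →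
      ∑ k ∈ Finset.range M, (ρ ^ k) ^ 2 * ‖co g k‖ ^ 2 ≤ nrm n G := by
    intro ρ h0 h1
    have hR : 1 < 1 / ρ := by rw [lt_div_iff₀ h0]; linarith
    have hF : DifferentiableOn ℂ (fun z => g ((ρ : ℂ) * z)) (ball 0 (1 / ρ)) := by
      apply hg.comp (by fun_prop : DifferentiableOn ℂ (fun z : ℂ => (ρ : ℂ) * z) (ball 0 (1 / ρ)))
      intro z hz
      rw [mem_ball_zero_iff] at hz ⊢
      rw [norm_mul, Complex.norm_real, Real.norm_of_nonneg h0.le]
      rw [lt_div_iff₀ h0] at hz
      linarith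
    have hb := hB (1 / ρ) hR _ hF M
    have e1 : ∀ k ∈ Finset.range M, ‖co (fun z => g ((ρ : ℂ) * z)) k‖ ^ 2
        = (ρ ^ k) ^ 2 * ‖co g k‖ ^ 2 := by
      intro k _
      rw [co_dil hg h0 h1, norm_mul, norm_pow, Complex.norm_real, Real.norm_of_nonneg h0.le]
      ring
    rw [Finset.sum_congr rfl e1] at hb
    refine hb.trans ?_
    set Gρ : ℂ[X] := G.comp (C (ρ : ℂ) * X) with hGρ
    have hdeg : Gρ.natDegree ≤ n := by
      rw [hGρ]
      refine (natDegree_comp_le).trans ?_
      have h2 : (C (ρ : ℂ) * X : ℂ[X]).natDegree ≤ 1 :=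
      (natDegree_C_mul_le _ _).trans natDegree_X_le
      calc G.natDegree * (C (ρ : ℂ) * X : ℂ[X]).natDegree ≤ G.natDegree * 1 :=
            Nat.mul_le_mul_left _ h2
        _ ≤ n := by omega
    have h2 : av (fun z => ‖g ((ρ : ℂ) * z)‖ ^ 2) ≤ av (sq Gρ) := by
      unfold av
      apply Real.circleAverage_mono
      · apply ContinuousOn.circleIntegrable'
        have : ContinuousOn (fun z => g ((ρ : ℂ) * z)) (sphere 0 |1|) := by
          apply hF.continuousOn.mono
          intro z hz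
          rw [mem_ball_zero_iff]
          rw [mem_sphere_zero_iff_norm, abs_one] at hz
          rw [hz]
          exact hR
        exact this.norm.pow 2
      · apply ContinuousOn.circleIntegrable'
        unfold Pool.Agent.H82.NP.sq
        fun_prop
      · intro z hz
        rw [mem_sphere_zero_iff_norm, abs_one] at hz
        have h3 : ‖(ρ : ℂ) * z‖ < 1 := by
          rw [norm_mul, Complex.norm_real, Real.norm_of_nonneg h0.le, hz]
          linarith
        have h4 := hle _ h3
        have h5 : sq Gρ z = ‖G.eval ((ρ : ℂ) * z)‖ ^ 2 := by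
          unfold Pool.Agent.H82.NP.sq
          rw [hGρ, eval_comp, eval_mul, eval_C, eval_X]
        show ‖g ((ρ : ℂ) * z)‖ ^ 2 ≤ sq Gρ z
        rw [h5]
        gcongr
    refine h2.trans ?_
    rw [hP n Gρ hdeg]
    unfold nrm
    apply Finset.sum_le_sum
    intro k _
    rw [hGρ, comp_C_mul_X_coeff, norm_mul, norm_pow, Complex.norm_real,
      Real.norm_of_nonneg h0.le]
    have h6 : ρ ^ k ≤ 1 := pow_le_one₀ h0.le h1.le
    have h7 : 0 ≤ ρ ^ k := by positivity
    have h8 : ‖G.coeff k‖ * ρ ^ k ≤ ‖G.coeff k‖ := by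
      calc ‖G.coeff k‖ * ρ ^ k ≤ ‖G.coeff k‖ * 1 := by gcongr
        _ = _ := mul_one _
    gcongr
  have hlim : Tendsto (fun ρ : ℝ => ∑ k ∈ Finset.range M, (ρ ^ k) ^ 2 * ‖co g k‖ ^ 2) (𝓝[<] 1)
      (𝓝 (∑ k ∈ Finset.range M, ‖co g k‖ ^ 2)) := by
    have hc : Continuous (fun ρ : ℝ => ∑ k ∈ Finset.range M, (ρ ^ k) ^ 2 * ‖co g k‖ ^ 2) := by
      fun_prop
    have := hc.tendsto 1
    simp only [one_pow, one_mul] at this
    exact this.mono_left nhdsWithin_le_nhds
  apply le_of_tendsto hlim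
  filter_upwards [Ioo_mem_nhdsLT (show (0 : ℝ) < 1 by norm_num)] with ρ hρ
  exact key ρ hρ.1 hρ.2

/-- a nonzero polynomial does not decay exponentially at a boundary point -/
lemma no_exp_decay {B : ℂ[X]} (hB : B ≠ 0) {z₀ : ℂ} (hz₀ : ‖z₀‖ = 1) {K b : ℝ} (hb : 0 < b)
    (h : ∀ x : ℝ, 1 < x → ‖B.eval (((1 - 1 / x : ℝ) : ℂ) * z₀)‖ ≤ K * Real.exp (-b * x)) : False := by
  obtain ⟨q, hq, hnd⟩ := exists_eq_pow_rootMultiplicity_mul_and_not_dvd B hB z₀
  set N := B.rootMultiplicity z₀ with hN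
  have hq0 : q.eval z₀ ≠ 0 := by
    intro h0
    exact hnd (dvd_iff_isRoot.mpr h0)
  have h1 : ∀ x : ℝ, 1 < x → ‖q.eval (((1 - 1 / x : ℝ) : ℂ) * z₀)‖ ≤ K * (x ^ (N : ℝ) * Real.exp (-b * x)) := by
    intro x hx
    have h2 := h x hx
    rw [hq, eval_mul, eval_pow, eval_sub, eval_X, eval_C, norm_mul, norm_pow] at h2
    have h3 : ‖((1 - 1 / x : ℝ) : ℂ) * z₀ - z₀‖ = 1 / x := by
      have : ((1 - 1 / x : ℝ) : ℂ) * z₀ - z₀ = -((1 / x : ℝ) : ℂ) * z₀ := by
        push_cast; ring
      rw [this, norm_mul, norm_neg, Complex.norm_real, hz₀, mul_one, Real.norm_of_nonneg (by positivity)]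
    rw [h3] at h2
    have h4 : 0 < x := by linarith
    have h5 : ‖q.eval (((1 - 1 / x : ℝ) : ℂ) * z₀)‖
        = x ^ N * ((1 / x) ^ N * ‖q.eval (((1 - 1 / x : ℝ) : ℂ) * z₀)‖) := by
      rw [← mul_assoc, ← mul_pow]
      rw [mul_one_div_cancel h4.ne', one_pow, one_mul]
    rw [h5, Real.rpow_natCast]
    calc x ^ N * ((1 / x) ^ N * ‖q.eval (((1 - 1 / x : ℝ) : ℂ) * z₀)‖)
        ≤ x ^ N * (K * Real.exp (-b * x)) := by gcongr
      _ = _ := by ring
  have h2 : Tendsto (fun x : ℝ => K * (x ^ (N : ℝ) * Real.exp (-b * x))) atTop (𝓝 (K * 0)) :=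
    (tendsto_rpow_mul_exp_neg_mul_atTop_nhds_zero (N : ℝ) b hb).const_mul K
  rw [mul_zero] at h2
  have h3 : Tendsto (fun x : ℝ => ‖q.eval (((1 - 1 / x : ℝ) : ℂ) * z₀)‖) atTop (𝓝 ‖q.eval z₀‖) := by
    have h4 : Tendsto (fun x : ℝ => 1 - 1 / x) atTop (𝓝 (1 - 0)) := by
      have h5 : Tendsto (fun x : ℝ => 1 / x) atTop (𝓝 0) := tendsto_const_nhds.div_atTop tendsto_id
      exact tendsto_const_nhds.sub h5
    rw [sub_zero] at h4
    have h5 : Continuous (fun t : ℝ => ‖q.eval ((t : ℂ) * z₀)‖) := by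
      have : Continuous (fun w : ℂ => q.eval w) := q.continuous
      fun_prop
    have h6 := (h5.tendsto 1).comp h4
    have h7 : ‖q.eval (((1 : ℝ) : ℂ) * z₀)‖ = ‖q.eval z₀‖ := by
      rw [Complex.ofReal_one, one_mul]
    rw [h7] at h6
    exact h6
  have h4 : ‖q.eval z₀‖ ≤ 0 := by
    apply le_of_tendsto_of_tendsto h3 h2
    filter_upwards [eventually_gt_atTop (1 : ℝ)] with x hx
    exact h1 x hx
  exact hq0 (norm_le_zero_iff.mp h4)


lemma nrm_of_kkt {n : ℕ} {s : ℝ} {c : ℕ → ℂ} {G : ℂ[X]} {lam : ℕ → ℂ} {m : ℕ}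
    {r : Fin m → ℝ} {ζ : Fin m → ℂ} (hc : ea c n ≠ 0) (hK : KKT n s c G lam m r ζ) :
    nrm n G = 1 := by
  have h := hK.ker_eq 0 (Nat.zero_le n)
  unfold ac Pool.Agent.H82.NP.ker at h
  rw [if_pos (Nat.zero_le n), Nat.sub_zero, div_self hc] at h
  have h2 : (nrm n G : ℂ) = 1 := by
    rw [← h]
    unfold nrm
    push_cast
    apply Finset.sum_congr rfl
    intro j _
    rw [add_zero, Complex.mul_conj, Complex.normSq_eq_norm_sq]
    push_cast
    rfl
  exact_mod_cast h2

theorem t_P1 (hEA1 : T_EA1) (hEA2 : T_EA2) (hEA6 : T_EA6) (hBES : T_BESSEL) (hPARS : T_PARS) :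
    T_P1 := by
  intro n c G lam m r ζ hn hM hK
  have hcn : ea c n ≠ 0 := norm_pos_iff.mp hM.pos
  have hnrm : nrm n G = 1 := nrm_of_kkt hcn hK
  set a : Fin m → ℂ := fun i => (starRingEnd ℂ) (ζ i) with ha
  have ha1 : ∀ i, ‖a i‖ ≤ 1 := by
    intro i
    rw [ha]
    simp only [RCLike.norm_conj]
    exact (hK.circ i).le
  set φ : ℝ := (c 0).im - (lam 0).im with hφ
  set h : ℂ → ℂ := fun z => ((φ / 2 : ℝ) : ℂ) * Complex.I + ∑ i, ((-(r i) / 2 : ℝ) : ℂ) * hk (a i) z with hh
  have hkan : ∀ i, AnalyticAt ℂ (hk (a i)) 0 := fun i =>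
    Pool.Agent.H82.Hp.analyticAt_zero (hk_diff (ha1 i))
  have hhd : DifferentiableOn ℂ h (ball 0 1) := by
    apply (differentiableOn_const _).add
    have : DifferentiableOn ℂ (fun z => ∑ i, ((-(r i) / 2 : ℝ) : ℂ) * hk (a i) z) (ball 0 1) := by
      apply DifferentiableOn.fun_sum
      intro i _
      exact (hk_diff (ha1 i)).const_mul _
    exact this
  have hco : ∀ k, co h k = (if k = 0 then ((φ / 2 : ℝ) : ℂ) * Complex.I else 0)
      + ∑ i, ((-(r i) / 2 : ℝ) : ℂ) * (if k = 0 then 1 else 2 * a i ^ k) := by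
    intro k
    rw [hh, co_add analyticAt_const ?_, co_const, co_sum _ ?_]
    · simp_rw [co_const_mul, hk_co (ha1 _)]
    · intro i _
      exact analyticAt_const.mul (hkan i)
    · apply Finset.analyticAt_fun_sum
      intro i _
      exact analyticAt_const.mul (hkan i)
  set g : ℂ → ℂ := fun z => G.eval z * Complex.exp (h z) with hg
  have hgd : DifferentiableOn ℂ g (ball 0 1) := by
    apply DifferentiableOn.mul
    · fun_prop
    · exact hhd.cexp
  have hgco : ∀ k, k ≤ n → co g k = ea (fun j => c j / 2) k := by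
    intro k hk
    rw [hg, co_mul (G.differentiable.analyticAt 0) (Pool.Agent.H82.Hp.analyticAt_zero hhd.cexp)]
    have e1 : ∀ j ∈ Finset.range (k + 1), co (fun z => G.eval z) j * co (fun z => Complex.exp (h z)) (k - j)
        = ea (fun i => lam i / 2) j * ea (fun i => co h i) (k - j) := by
      intro j _
      rw [co_poly, hK.log.exp, hEA1 (fun z => Complex.exp (h z)) h hhd (fun z _ => rfl)]
    rw [Finset.sum_congr rfl e1, ← hEA2]
    apply hEA6
    intro j hj
    rw [hco]
    by_cases hj0 : j = 0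
    · subst hj0
      simp only [if_true, mul_one]
      have hc0 := hK.c0
      rw [one_mul] at hc0
      apply Complex.ext
      · simp only [Complex.add_re, Complex.mul_re, Complex.ofReal_re, Complex.I_re, mul_zero,
          Complex.ofReal_im, Complex.I_im, mul_one, sub_self, zero_add, Complex.re_sum,
          Complex.div_ofNat_re]
        rw [hc0]
        simp only [neg_div]
        rw [Finset.sum_neg_distrib, ← Finset.sum_div]
        ring
      · simp only [Complex.add_im, Complex.mul_im, Complex.ofReal_re, Complex.I_re, mul_zero,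
          Complex.ofReal_im, Complex.I_im, mul_one, zero_add, Complex.im_sum,
          Complex.div_ofNat_im, Finset.sum_const_zero, add_zero]
        rw [hφ]
        ring
    · simp only [if_neg hj0, zero_add]
      rw [hK.ck j (by omega) (by omega), Complex.ofReal_one, one_mul, sub_div]
      have e2 : ∑ i, ((-(r i) / 2 : ℝ) : ℂ) * (2 * a i ^ j) = -∑ i, (r i : ℂ) * (starRingEnd ℂ) (ζ i) ^ j := by
        rw [← Finset.sum_neg_distrib]
        apply Finset.sum_congr rfl
        intro i _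
        rw [ha]
        push_cast
        ring
      rw [e2]
      ring
  have hhre : ∀ z : ℂ, ‖z‖ < 1 → (h z).re = -∑ i, (r i / 2) * (hk (a i) z).re := by
    intro z _
    rw [hh]
    simp only [Complex.add_re, Complex.mul_re, Complex.ofReal_re, Complex.I_re, mul_zero,
      Complex.ofReal_im, Complex.I_im, mul_one, sub_self, zero_add, Complex.re_sum, zero_mul, sub_zero]
    rw [← Finset.sum_neg_distrib]
    apply Finset.sum_congr rfl
    intro i _
    ring
  have hgle : ∀ z : ℂ, ‖z‖ < 1 → ‖g z‖ ≤ ‖G.eval z‖ := by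
    intro z hz
    rw [hg]
    simp only [norm_mul, Complex.norm_exp]
    rw [hhre z hz]
    have h1 : 0 ≤ ∑ i, (r i / 2) * (hk (a i) z).re := by
      apply Finset.sum_nonneg
      intro i _
      exact mul_nonneg (by linarith [hK.rpos i]) (hk_re_pos (ha1 i) hz).le
    have h2 : Real.exp (-∑ i, (r i / 2) * (hk (a i) z).re) ≤ 1 := by
      rw [Real.exp_le_one_iff]
      linarith
    calc ‖G.eval z‖ * Real.exp (-∑ i, (r i / 2) * (hk (a i) z).re) ≤ ‖G.eval z‖ * 1 := by gcongr
      _ = _ := mul_one _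
  have hbes : ∀ M, ∑ k ∈ Finset.range M, ‖co g k‖ ^ 2 ≤ 1 := by
    intro M
    rw [← hnrm]
    exact bessel_dom hBES hPARS hK.deg hgd hgle M
  -- the coefficient as a sum of products
  have hsum : ea c n = ∑ j ∈ Finset.range (n + 1), co g j * co g (n - j) := by
    have e1 := hEA2 (fun j => c j / 2) (fun j => c j / 2) n
    have e2 : (fun k => c k / 2 + c k / 2) = c := by
      funext k; ring
    simp only [e2] at e1
    rw [e1]
    apply Finset.sum_congr rfl
    intro j hj
    rw [Finset.mem_range] at hj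
    rw [hgco j (by omega), hgco (n - j) (by omega)]
  set S : ℝ := ∑ k ∈ Finset.range (n + 1), ‖co g k‖ ^ 2 with hS
  have hS1 : S ≤ 1 := hbes (n + 1)
  have hrefl : ∑ k ∈ Finset.range (n + 1), ‖co g (n - k)‖ ^ 2 = S := by
    rw [hS, ← Finset.sum_range_reflect]
    apply Finset.sum_congr rfl
    intro k hk
    rw [Finset.mem_range] at hk
    have e1 : n - (n + 1 - 1 - k) = k := by omega
    rw [e1]
  have hid : ∑ k ∈ Finset.range (n + 1), ‖co g (n - k) - (starRingEnd ℂ) (co g k)‖ ^ 2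
      = 2 * S - 2 * ‖ea c n‖ := by
    have e1 : ∀ k ∈ Finset.range (n + 1), ‖co g (n - k) - (starRingEnd ℂ) (co g k)‖ ^ 2
        = ‖co g (n - k)‖ ^ 2 + ‖co g k‖ ^ 2 - 2 * (co g k * co g (n - k)).re := by
      intro k _
      rw [← Complex.normSq_eq_norm_sq, ← Complex.normSq_eq_norm_sq, ← Complex.normSq_eq_norm_sq,
        Complex.normSq_apply, Complex.normSq_apply, Complex.normSq_apply]
      simp only [Complex.sub_re, Complex.sub_im, Complex.conj_re, Complex.conj_im, Complex.mul_re]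
      ring
    rw [Finset.sum_congr rfl e1, Finset.sum_sub_distrib, Finset.sum_add_distrib, hrefl,
      ← Finset.mul_sum]
    have e2 : ∑ k ∈ Finset.range (n + 1), (co g k * co g (n - k)).re = ‖ea c n‖ := by
      rw [← Complex.re_sum, ← hsum, hM.real, Complex.ofReal_re]
      rw [Complex.norm_real, norm_norm]
    rw [e2]
    ring
  have hnn : 0 ≤ ∑ k ∈ Finset.range (n + 1), ‖co g (n - k) - (starRingEnd ℂ) (co g k)‖ ^ 2 :=
    Finset.sum_nonneg (fun k _ => by positivity)
  refine ⟨by linarith, ?_⟩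
  intro h1
  have hzero : ∑ k ∈ Finset.range (n + 1), ‖co g (n - k) - (starRingEnd ℂ) (co g k)‖ ^ 2 = 0 := by
    linarith
  have hS2 : S = 1 := by linarith
  have hsym : ∀ k, k ≤ n → co g (n - k) = (starRingEnd ℂ) (co g k) := by
    intro k hk
    rw [Finset.sum_eq_zero_iff_of_nonneg (fun k _ => by positivity)] at hzero
    have := hzero k (Finset.mem_range.mpr (by omega))
    rw [pow_eq_zero_iff (by norm_num), norm_eq_zero] at this
    linear_combination this
  have hbig : ∀ k, n < k → co g k = 0 := by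
    intro k hk
    have e1 := hbes (k + 1)
    have e2 : S + ‖co g k‖ ^ 2 ≤ ∑ k ∈ Finset.range (k + 1), ‖co g k‖ ^ 2 := by
      rw [Finset.sum_range_succ, hS]
      gcongr
      omega
    have e3 : ‖co g k‖ ^ 2 ≤ 0 := by linarith
    have e4 : ‖co g k‖ = 0 := by
      have := norm_nonneg (co g k)
      nlinarith
    exact norm_eq_zero.mp e4
  set B : ℂ[X] := ∑ k ∈ Finset.range (n + 1), C (co g k) * X ^ k with hBdef
  have hBg : ∀ z : ℂ, ‖z‖ < 1 → g z = B.eval z := fun z hz => eq_poly hgd hbig hz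
  have hg0 : g 0 ≠ 0 := by
    rw [hg]
    exact mul_ne_zero (hK.zf 0 (by simp)) (Complex.exp_ne_zero _)
  have hB0 : B ≠ 0 := by
    intro hB
    have := hBg 0 (by simp)
    rw [hB, eval_zero] at this
    exact hg0 this
  -- no point masses
  have hm0 : IsEmpty (Fin m) := by
    by_contra hne
    rw [not_isEmpty_iff] at hne
    obtain ⟨i⟩ := hne
    set CG : ℝ := ∑ k ∈ Finset.range (n + 1), ‖G.coeff k‖ with hCG
    have hGb : ∀ z : ℂ, ‖z‖ ≤ 1 → ‖G.eval z‖ ≤ CG := by
      intro z hz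
      rw [eval_eq hK.deg, hCG]
      refine (norm_sum_le _ _).trans ?_
      apply Finset.sum_le_sum
      intro k _
      rw [norm_mul, norm_pow]
      calc ‖G.coeff k‖ * ‖z‖ ^ k ≤ ‖G.coeff k‖ * 1 := by
            gcongr
            exact pow_le_one₀ (norm_nonneg z) hz
        _ = _ := mul_one _
    apply no_exp_decay hB0 (hK.circ i) (K := CG * Real.exp (r i / 2)) (hK.rpos i)
    intro x hx
    have hx0 : 0 < x := by linarith
    have hxi : 1 / x < 1 := by rw [div_lt_one hx0]; exact hx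
    have hxp : 0 < 1 / x := by positivity
    set z : ℂ := ((1 - 1 / x : ℝ) : ℂ) * ζ i with hz
    have hz1 : ‖z‖ < 1 := by
      rw [hz, norm_mul, Complex.norm_real, hK.circ i, mul_one, Real.norm_of_nonneg (by linarith)]
      linarith
    rw [← hBg z hz1, hg]
    simp only [norm_mul, Complex.norm_exp]
    rw [hhre z hz1]
    have e1 : (hk (a i) z).re = 2 * x - 1 := by
      have e2 : a i * z = ((1 - 1 / x : ℝ) : ℂ) := by
        rw [hz, ha]
        have e3 : (starRingEnd ℂ) (ζ i) * ζ i = 1 := by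
          rw [mul_comm, Complex.mul_conj, Complex.normSq_eq_norm_sq, hK.circ i]
          norm_num
        linear_combination ((1 - 1 / x : ℝ) : ℂ) * e3
      unfold hk
      rw [e2]
      have e4 : (2 * (1 - ((1 - 1 / x : ℝ) : ℂ))⁻¹ + -1 : ℂ) = ((2 * x - 1 : ℝ) : ℂ) := by
        have e5 : (1 - ((1 - 1 / x : ℝ) : ℂ)) = (x : ℂ)⁻¹ := by
          push_cast
          ring
        rw [e5, inv_inv]
        push_cast
        ring
      rw [e4, Complex.ofReal_re]
    have e2 : (r i / 2) * (hk (a i) z).re ≤ ∑ j, (r j / 2) * (hk (a j) z).re := by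
      apply Finset.single_le_sum (f := fun j => (r j / 2) * (hk (a j) z).re) _ (Finset.mem_univ i)
      intro j _
      exact mul_nonneg (by linarith [hK.rpos j]) (hk_re_pos (ha1 j) hz1).le
    rw [e1] at e2
    have e3 : Real.exp (-∑ j, (r j / 2) * (hk (a j) z).re) ≤ Real.exp (r i / 2) * Real.exp (-(r i) * x) := by
      rw [← Real.exp_add]
      apply Real.exp_le_exp.mpr
      nlinarith
    have hCG0 : 0 ≤ CG := Finset.sum_nonneg (fun k _ => norm_nonneg _)
    calc ‖G.eval z‖ * Real.exp (-∑ j, (r j / 2) * (hk (a j) z).re)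
        ≤ CG * (Real.exp (r i / 2) * Real.exp (-(r i) * x)) := by
          apply mul_le_mul (hGb z hz1.le) e3 (Real.exp_pos _).le hCG0
      _ = _ := by ring
  -- so the factor is constant
  set κ : ℂ := Complex.exp (((φ / 2 : ℝ) : ℂ) * Complex.I) with hκ
  have hκ0 : κ ≠ 0 := Complex.exp_ne_zero _
  have hcoef : ∀ k, co g k = κ * G.coeff k := by
    intro k
    have e1 : g = fun z => κ * G.eval z := by
      funext z
      rw [hg]
      simp only
      rw [hh]
      simp only [Finset.univ_eq_empty, Finset.sum_empty, add_zero]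
      rw [← hκ]
      ring
    rw [e1, co_const_mul, co_poly]
  have hG0 : G.coeff 0 ≠ 0 := by
    have := hK.zf 0 (by simp)
    rwa [← coeff_zero_eq_eval_zero] at this
  constructor
  · apply natDegree_eq_of_le_of_coeff_ne_zero hK.deg
    intro hz
    have e1 := hsym 0 (Nat.zero_le n)
    rw [Nat.sub_zero, hcoef, hcoef, hz, mul_zero, eq_comm, map_eq_zero] at e1
    rcases mul_eq_zero.mp e1 with e2 | e2
    · exact hκ0 e2
    · exact hG0 e2
  · intro z hz
    rcases lt_trichotomy ‖z‖ 1 with h2 | h2 | h2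
    · exact absurd hz (hK.zf z h2)
    · exact h2
    · exfalso
      set w : ℂ := ((starRingEnd ℂ) z)⁻¹ with hw
      have hz0 : z ≠ 0 := by
        intro h0
        rw [h0, norm_zero] at h2
        linarith
      have hcz0 : (starRingEnd ℂ) z ≠ 0 := by
        rwa [Ne, map_eq_zero]
      have hw1 : ‖w‖ < 1 := by
        rw [hw, norm_inv, RCLike.norm_conj]
        exact inv_lt_one_of_one_lt₀ h2
      apply hK.zf w hw1
      have e1 : κ * ((starRingEnd ℂ) z ^ n * G.eval w) = 0 := by
        rw [eval_eq hK.deg, Finset.mul_sum, Finset.mul_sum]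
        have e2 : ∀ k ∈ Finset.range (n + 1), κ * ((starRingEnd ℂ) z ^ n * (G.coeff k * w ^ k))
            = co g k * (starRingEnd ℂ) z ^ (n - k) := by
          intro k hk
          rw [Finset.mem_range] at hk
          rw [hcoef, hw, inv_pow]
          have e3 : (starRingEnd ℂ) z ^ n = (starRingEnd ℂ) z ^ (n - k) * (starRingEnd ℂ) z ^ k := by
            rw [← pow_add]
            congr 1
            omega
          rw [e3]
          have e4 : (starRingEnd ℂ) z ^ k ≠ 0 := pow_ne_zero _ hcz0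
          field_simp
        rw [Finset.sum_congr rfl e2, ← Finset.sum_range_reflect]
        have e5 : ∀ k ∈ Finset.range (n + 1), co g (n + 1 - 1 - k) * (starRingEnd ℂ) z ^ (n - (n + 1 - 1 - k))
            = (starRingEnd ℂ) (κ * (G.coeff k * z ^ k)) := by
          intro k hk
          rw [Finset.mem_range] at hk
          have e6 : n + 1 - 1 - k = n - k := by omega
          have e7 : n - (n - k) = k := by omega
          rw [e6, e7, hsym k (by omega), hcoef, ← mul_assoc, map_mul _ _ (z ^ k), map_pow]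
        rw [Finset.sum_congr rfl e5, ← map_sum, ← Finset.mul_sum, ← eval_eq hK.deg, hz, mul_zero,
          map_zero]
      rcases mul_eq_zero.mp e1 with e2 | e2
      · exact absurd e2 hκ0
      · rcases mul_eq_zero.mp e2 with e3 | e3
        · exact absurd (pow_eq_zero_iff (by omega) |>.mp e3) hcz0
        · exact e3

end Pool.Agent.H42.NP
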