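import Mathlib
import Pool.Agent.H82.NP.Targets
import Pool.Agent.H82.NP.Trig
import Pool.Agent.H42.NP.P1

/-!
# Compactness near `s = 1` (`MP_ff17e6_an`)
-/

set_option autoImplicit false

open Metric Set Filter Topology Polynomial

namespace Pool.Agent.H42.NP

open Pool.Agent.H82.Hp (co)
open Pool.Agent.H82.NP

lemma ent_congr {T T' : ℂ → ℝ} (h : ∀ z : ℂ, ‖z‖ = 1 → T z = T' z) : ent T = ent T' := by
  unfold ent av
  apply Real.circleAverage_congr_sphere
  intro z hz
  rw [mem_sphere_zero_iff_norm, abs_one] at hz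
  simp only [h z hz]

lemma sq_kkt {n : ℕ} {s : ℝ} {c : ℕ → ℂ} {G : ℂ[X]} {lam : ℕ → ℂ} {m : ℕ}
    {r : Fin m → ℝ} {ζ : Fin m → ℂ} (hK : KKT n s c G lam m r ζ) {z : ℂ} (hz : ‖z‖ = 1) :
    Pool.Agent.H82.NP.sq G z = TP n (Pool.Agent.H82.NP.ker n c) z := by
  rw [t_AC n G hK.deg z hz]
  exact TP_congr hK.ker_eq z

lemma vv_nonneg (n : ℕ) (G : ℂ[X]) : 0 ≤ vv n G := by
  unfold vv
  apply Finset.sum_nonneg
  intro j hj
  rw [Finset.mem_range] at hj
  have h1 : (0 : ℝ) ≤ (n : ℝ) - j := by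
    have : (j : ℝ) ≤ n := by exact_mod_cast (by omega : j ≤ n)
    linarith
  positivity

lemma coeff_of_vv {n : ℕ} {G : ℂ[X]} (h : vv n G ≤ 0) {j : ℕ} (h1 : 1 ≤ j) (h2 : j < n) :
    G.coeff j = 0 := by
  have h3 : vv n G = 0 := le_antisymm h (vv_nonneg n G)
  unfold vv at h3
  rw [Finset.sum_eq_zero_iff_of_nonneg] at h3
  · have h4 := h3 j (Finset.mem_range.mpr (by omega))
    have h5 : (0 : ℝ) < (j : ℝ) * (n - j) / n ^ 2 := by
      have e1 : (0 : ℝ) < j := by exact_mod_cast (by omega : 0 < j)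
      have e2 : (j : ℝ) < n := by exact_mod_cast h2
      have e3 : (0 : ℝ) < n := by linarith
      have e4 : (0 : ℝ) < n - j := by linarith
      positivity
    rcases mul_eq_zero.mp h4 with h6 | h6
    · exact absurd h6 h5.ne'
    · exact norm_eq_zero.mp (pow_eq_zero_iff (by norm_num) |>.mp h6)
  · intro i hi
    rw [Finset.mem_range] at hi
    have h1 : (0 : ℝ) ≤ (n : ℝ) - i := by
      have : (i : ℝ) ≤ n := by exact_mod_cast (by omega : i ≤ n)
      linarith
    positivity

lemma dvd_of_roots {G H : ℂ[X]} (hG : G ≠ 0) (hs : ∀ z, G.eval z = 0 → (derivative G).eval z ≠ 0)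
    (hGH : ∀ z, G.eval z = 0 → H.eval z = 0) (hH : H ≠ 0) : G ∣ H := by
  have hsep : G.Separable := by
    unfold Separable
    rw [isCoprime_iff_aeval_ne_zero_of_isAlgClosed ℂ ℂ]
    intro a
    by_cases h : G.eval a = 0
    · right
      rw [coe_aeval_eq_eval]
      exact hs a h
    · left
      rw [coe_aeval_eq_eval]
      exact h
  apply (IsAlgClosed.splits G).dvd_of_roots_le_roots hG
  rw [Multiset.le_iff_subset (nodup_roots hsep)]
  intro z hz
  rw [mem_roots hG] at hz
  rw [mem_roots hH]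
  exact hGH z hz

lemma lam_nonpos {n : ℕ} {s : ℝ} {c : ℕ → ℂ} {G : ℂ[X]} {lam : ℕ → ℂ} {m : ℕ}
    {r : Fin m → ℝ} {ζ : Fin m → ℂ} (hc : ea c n ≠ 0) (hK : KKT n s c G lam m r ζ) :
    (lam 0).re ≤ 0 := by
  have h1 := hK.log.exp 0
  have h2 : ‖G.coeff 0‖ = Real.exp ((lam 0).re / 2) := by
    rw [h1, ea, Complex.norm_exp]
    congr 1
    simp
  have h3 : ‖G.coeff 0‖ ^ 2 ≤ 1 := by
    rw [← nrm_of_kkt hc hK]
    unfold nrm
    exact Finset.single_le_sum (f := fun k => ‖G.coeff k‖ ^ 2) (fun k _ => by positivity)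
      (Finset.mem_range.mpr (by omega))
  have h4 : ‖G.coeff 0‖ ≤ 1 := by
    have := norm_nonneg (G.coeff 0)
    nlinarith
  rw [h2, Real.exp_le_one_iff] at h4
  linarith

theorem t_NEAR (hP1 : T_P1) (hEN : T_EN) (hLOC : T_LOC) (hENTC : T_ENTC) (hCCCL : T_CCCL)
    (hCAND : T_CAND) (hMAXEX : T_MAXEX) (hMAXBD : T_MAXBD) (hKKT : T_KKT) (hEA3 : T_EA3) :
    T_NEAR := by
  intro n hn
  by_contra hcon
  push Not at hcon
  have hex : ∀ k : ℕ, ∃ (s : ℝ) (c : ℕ → ℂ) (G : ℂ[X]) (lam : ℕ → ℂ) (m : ℕ) (r : Fin m → ℝ)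
      (ζ : Fin m → ℂ), 1 - 1 / ((k : ℝ) + 2) < s ∧ s < 1 ∧ Max n s c ∧ KKT n s c G lam m r ζ ∧
      (eps0 ≤ ent (Pool.Agent.H82.NP.sq G) → ent (Pool.Agent.H82.NP.sq G) ≤ eps0 ∧
        ∃ j, 1 ≤ j ∧ j < n ∧ Pool.Agent.H82.NP.ker n c j ≠ 0) := by
    intro k
    have hk : (0 : ℝ) < (k : ℝ) + 2 := by positivity
    have h1 : 1 / ((k : ℝ) + 2) < 1 := by
      rw [div_lt_one hk]
      have : (0 : ℝ) ≤ k := Nat.cast_nonneg k
      linarith
    obtain ⟨s, hs1, hs2, c, G, lam, m, r, ζ, h⟩ := hcon (1 - 1 / ((k : ℝ) + 2)) (by linarith)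
      (by have : (0 : ℝ) < 1 / ((k : ℝ) + 2) := by positivity
          linarith)
    exact ⟨s, c, G, lam, m, r, ζ, hs1, hs2, h⟩
  choose s c G lam m r ζ hs1 hs2 hM hK hv using hex
  have hshalf : ∀ k, 1 / 2 ≤ s k := by
    intro k
    have h1 := hs1 k
    have h2 : 1 / ((k : ℝ) + 2) ≤ 1 / 2 := by
      apply one_div_le_one_div_of_le (by norm_num)
      have : (0 : ℝ) ≤ k := Nat.cast_nonneg k
      linarith
    linarith
  have hspos : ∀ k, 0 < s k := fun k => by linarith [hshalf k]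
  have hslim : Tendsto s atTop (𝓝 1) := by
    have h1 : Tendsto (fun k : ℕ => 1 - 1 / ((k : ℝ) + 2)) atTop (𝓝 (1 - 0)) := by
      apply tendsto_const_nhds.sub
      have h2 : Tendsto (fun k : ℕ => ((k : ℝ) + 2)) atTop atTop :=
        tendsto_atTop_add_const_right _ _ tendsto_natCast_atTop_atTop
      exact tendsto_const_nhds.div_atTop h2
    rw [sub_zero] at h1
    exact tendsto_of_tendsto_of_tendsto_of_le_of_le h1 tendsto_const_nhds (fun k => (hs1 k).le)
      (fun k => (hs2 k).le)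
  have hent : ∀ k, ent (Pool.Agent.H82.NP.sq (G k)) ≤ eps0 := by
    intro k
    by_contra h
    push Not at h
    exact absurd (hv k h.le).1 (not_le.mpr h)
  have hean : ∀ k, ea (c k) n ≠ 0 := fun k => norm_pos_iff.mp (hM k).pos
  have hnrm : ∀ k, nrm n (G k) = 1 := fun k => nrm_of_kkt (hean k) (hK k)
  have hGc : ∀ k j, ‖(G k).coeff j‖ ≤ 1 := by
    intro k j
    by_cases hj : j ≤ n
    · have h3 : ‖(G k).coeff j‖ ^ 2 ≤ 1 := by
        rw [← hnrm k]
        unfold nrm
        exact Finset.single_le_sum (f := fun i => ‖(G k).coeff i‖ ^ 2) (fun i _ => by positivity)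
          (Finset.mem_range.mpr (by omega))
      have := norm_nonneg ((G k).coeff j)
      nlinarith
    · rw [coeff_eq_zero_of_natDegree_lt (by have := (hK k).deg; omega), norm_zero]
      norm_num
  obtain ⟨K, hKb⟩ := hMAXBD n hn
  have hcK : ∀ k j, ‖c k j‖ ≤ K := fun k j => hKb (s k) (c k) (hspos k) (hs2 k).le (hM k) j
  have hcomp : IsCompact ((Set.pi univ (fun _ : ℕ => closedBall (0 : ℂ) K)) ×ˢ
      (Set.pi univ (fun _ : ℕ => closedBall (0 : ℂ) 1))) :=
    (isCompact_univ_pi (fun _ => isCompact_closedBall 0 K)).prod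
      (isCompact_univ_pi (fun _ => isCompact_closedBall 0 1))
  obtain ⟨⟨d, g⟩, _, φ, hφ, hlim⟩ := hcomp.tendsto_subseq
    (x := fun k => (c k, fun j => (G k).coeff j)) (by
      intro k
      refine ⟨?_, ?_⟩
      · intro j _
        rw [mem_closedBall_zero_iff]
        exact hcK k j
      · intro j _
        rw [mem_closedBall_zero_iff]
        exact hGc k j)
  have hcl : Tendsto (fun k => c (φ k)) atTop (𝓝 d) :=
    (continuous_fst.tendsto (d, g)).comp hlim
  have hgl : Tendsto (fun k => fun j => (G (φ k)).coeff j) atTop (𝓝 g) :=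
    (continuous_snd.tendsto (d, g)).comp hlim
  have hclj : ∀ j, Tendsto (fun k => c (φ k) j) atTop (𝓝 (d j)) := fun j =>
    (tendsto_pi_nhds.mp hcl) j
  have hglj : ∀ j, Tendsto (fun k => (G (φ k)).coeff j) atTop (𝓝 (g j)) := fun j =>
    (tendsto_pi_nhds.mp hgl) j
  have hsl : Tendsto (fun k => s (φ k)) atTop (𝓝 1) := hslim.comp hφ.tendsto_atTop
  have hea : ∀ j, Tendsto (fun k => ea (c (φ k)) j) atTop (𝓝 (ea d j)) := fun j =>
    ((hEA3 j).tendsto d).comp hcl
  have hdCC : d ∈ CC n 1 := hCCCL n (fun k => s (φ k)) 1 (fun k => c (φ k)) d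
    (fun k => (hM (φ k)).mem) hsl hclj
  have hge : 1 ≤ ‖ea d n‖ := by
    have h1 : Tendsto (fun k => Real.exp (-(1 - s (φ k)) * eps0)) atTop (𝓝 (Real.exp (-(1 - 1) * eps0))) := by
      apply (Real.continuous_exp.tendsto _).comp
      exact ((tendsto_const_nhds.sub hsl).neg).mul_const _
    have h2 : Real.exp (-(1 - 1) * eps0) = 1 := by simp
    rw [h2] at h1
    refine le_of_tendsto_of_tendsto' h1 (hea n).norm ?_
    intro k
    obtain ⟨d', hd'1, hd'2⟩ := hCAND n (s (φ k)) hn (hspos _) (hs2 _).le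
    exact hd'2.trans ((hM (φ k)).max d' hd'1)
  obtain ⟨c1, hc1⟩ := hMAXEX n 1 hn one_pos le_rfl
  obtain ⟨G1, lam1, m1, r1, ζ1, hK1⟩ := hKKT n 1 c1 hn one_pos le_rfl hc1
  have hle1 : ∀ e ∈ CC n 1, ‖ea e n‖ ≤ 1 := fun e he =>
    (hc1.max e he).trans (hP1 n c1 G1 lam1 m1 r1 ζ1 hn hc1 hK1).1
  have hMd : Max n 1 d := by
    refine ⟨hdCC, ?_, ?_, ?_, by linarith, fun e he => (hle1 e he).trans hge⟩
    · intro k hk
      have h1 : (fun i => c (φ i) k) = fun _ => 0 := by
        funext i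
        exact (hM (φ i)).supp k hk
      have h2 := hclj k
      rw [h1] at h2
      exact tendsto_nhds_unique h2 tendsto_const_nhds |>.symm ▸ rfl
    · have h2 : Tendsto (fun k => |(c (φ k) 0).im|) atTop (𝓝 |(d 0).im|) :=
        ((Complex.continuous_im.tendsto _).comp (hclj 0)).abs
      exact le_of_tendsto' h2 (fun k => (hM (φ k)).im0)
    · have h2 : Tendsto (fun k => ((‖ea (c (φ k)) n‖ : ℝ) : ℂ)) atTop (𝓝 ((‖ea d n‖ : ℝ) : ℂ)) :=
        (Complex.continuous_ofReal.tendsto _).comp (hea n).norm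
      have h3 : (fun k => ((‖ea (c (φ k)) n‖ : ℝ) : ℂ)) = fun k => ea (c (φ k)) n := by
        funext k
        exact ((hM (φ k)).real).symm
      rw [h3] at h2
      exact tendsto_nhds_unique (hea n) h2
  have hdn : ea d n ≠ 0 := norm_pos_iff.mp hMd.pos
  obtain ⟨G', lam', m', r', ζ', hK'⟩ := hKKT n 1 d hn one_pos le_rfl hMd
  obtain ⟨hdeg', hroot'⟩ := (hP1 n d G' lam' m' r' ζ' hn hMd hK').2 hge
  have hnrm' : nrm n G' = 1 := nrm_of_kkt hdn hK'
  have hEN' := hEN n G' hn hdeg' hroot' hnrm'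
  have hkerl : ∀ j, Tendsto (fun k => Pool.Agent.H82.NP.ker n (c (φ k)) j) atTop
      (𝓝 (Pool.Agent.H82.NP.ker n d j)) := by
    intro j
    unfold Pool.Agent.H82.NP.ker
    split_ifs with hj
    · exact (hea (n - j)).div (hea n) hdn
    · exact tendsto_const_nhds
  have hentG : ∀ k, ent (Pool.Agent.H82.NP.sq (G k)) = ent (TP n (Pool.Agent.H82.NP.ker n (c k))) :=
    fun k => ent_congr (fun z hz => sq_kkt (hK k) hz)
  have hentG' : ent (Pool.Agent.H82.NP.sq G') = ent (TP n (Pool.Agent.H82.NP.ker n d)) :=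
    ent_congr (fun z hz => sq_kkt hK' hz)
  have hent' : ent (Pool.Agent.H82.NP.sq G') ≤ eps0 := by
    rw [hentG']
    refine le_of_tendsto' (hENTC n (fun k => Pool.Agent.H82.NP.ker n (c (φ k))) _ hkerl) ?_
    intro k
    rw [← hentG]
    exact hent (φ k)
  have hnpos : (0 : ℝ) < n := by exact_mod_cast (by omega : 0 < n)
  have hvv' : vv n G' ≤ 0 := by
    have h1 : 2 / (3 * (n : ℝ)) * vv n G' ≤ 0 := by linarith
    have h2 : (0 : ℝ) < 2 / (3 * (n : ℝ)) := by positivity
    by_contra h3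
    push Not at h3
    have := mul_pos h2 h3
    linarith
  have hG'0 : G' ≠ 0 := by
    intro h
    have := hK'.zf 0 (by simp)
    rw [h, eval_zero] at this
    exact this rfl
  have hG'c : ∀ j, 1 ≤ j → j < n → G'.coeff j = 0 := fun j h1 h2 => coeff_of_vv hvv' h1 h2
  have hG'n : G'.coeff n ≠ 0 := by
    rw [← hdeg']
    exact leadingCoeff_ne_zero.mpr hG'0
  have hG'form : G' = C (G'.coeff 0) + C (G'.coeff n) * X ^ n := by
    ext j
    rw [coeff_add, coeff_C, coeff_C_mul, coeff_X_pow]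
    rcases Nat.eq_zero_or_pos j with h0 | h0
    · subst h0
      rw [if_pos rfl, if_neg (by omega), mul_zero, add_zero]
    · rcases lt_trichotomy j n with h1 | h1 | h1
      · rw [if_neg (by omega), if_neg (by omega), hG'c j h0 h1]
        ring
      · subst h1
        rw [if_neg (by omega), if_pos rfl]
        ring
      · rw [if_neg (by omega), if_neg (by omega), coeff_eq_zero_of_natDegree_lt (by omega)]
        ring
  have hder' : ∀ z, G'.eval z = 0 → (derivative G').eval z ≠ 0 := by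
    intro z hz
    have hz1 : ‖z‖ = 1 := hroot' z hz
    have hz0 : z ≠ 0 := by
      intro h
      rw [h, norm_zero] at hz1
      norm_num at hz1
    rw [hG'form]
    simp only [derivative_add, derivative_C, zero_add, derivative_C_mul, derivative_X_pow, eval_mul,
      eval_C, eval_pow, eval_X, eval_natCast]
    have : (n : ℂ) ≠ 0 := by exact_mod_cast (by omega : n ≠ 0)
    exact mul_ne_zero hG'n (mul_ne_zero this (pow_ne_zero _ hz0))
  -- the limit polynomial
  set H : ℂ[X] := ∑ j ∈ Finset.range (n + 1), C (g j) * X ^ j with hH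
  have hHc : ∀ j, H.coeff j = g j := by
    intro j
    rw [hH, finsetSum_coeff]
    simp only [coeff_C_mul, coeff_X_pow, mul_ite, mul_one, mul_zero]
    rw [Finset.sum_ite_eq]
    split_ifs with h
    · rfl
    · rw [Finset.mem_range] at h
      have h1 : (fun i => (G (φ i)).coeff j) = fun _ => 0 := by
        funext i
        exact coeff_eq_zero_of_natDegree_lt (by have := (hK (φ i)).deg; omega)
      have h2 := hglj j
      rw [h1] at h2
      exact tendsto_nhds_unique tendsto_const_nhds h2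
  have hHdeg : H.natDegree ≤ n := by
    rw [natDegree_le_iff_coeff_eq_zero]
    intro j hj
    rw [hHc]
    have h1 : (fun i => (G (φ i)).coeff j) = fun _ => 0 := by
      funext i
      exact coeff_eq_zero_of_natDegree_lt (by have := (hK (φ i)).deg; omega)
    have h2 := hglj j
    rw [h1] at h2
    exact (tendsto_nhds_unique tendsto_const_nhds h2).symm
  have hHnrm : nrm n H = 1 := by
    have h1 : Tendsto (fun k => nrm n (G (φ k))) atTop (𝓝 (nrm n H)) := by
      unfold nrm
      apply tendsto_finsetSum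
      intro j _
      rw [hHc]
      exact ((hglj j).norm).pow 2
    have h2 : (fun k => nrm n (G (φ k))) = fun _ => 1 := by
      funext k
      exact hnrm (φ k)
    rw [h2] at h1
    exact (tendsto_nhds_unique tendsto_const_nhds h1).symm
  have hH0 : H ≠ 0 := by
    intro h
    rw [h] at hHnrm
    unfold nrm at hHnrm
    simp at hHnrm
  have hHsq : ∀ z : ℂ, ‖z‖ = 1 → Pool.Agent.H82.NP.sq H z = Pool.Agent.H82.NP.sq G' z := by
    intro z hz
    have h1 : Tendsto (fun k => Pool.Agent.H82.NP.sq (G (φ k)) z) atTop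
        (𝓝 (Pool.Agent.H82.NP.sq H z)) := by
      unfold Pool.Agent.H82.NP.sq
      apply Tendsto.pow
      apply Tendsto.norm
      rw [eval_eq hHdeg]
      have h2 : (fun k => (G (φ k)).eval z) = fun k => ∑ j ∈ Finset.range (n + 1), (G (φ k)).coeff j * z ^ j := by
        funext k
        exact eval_eq (hK (φ k)).deg z
      rw [h2]
      apply tendsto_finsetSum
      intro j _
      rw [hHc]
      exact (hglj j).mul_const _
    have h3 : Tendsto (fun k => Pool.Agent.H82.NP.sq (G (φ k)) z) atTop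
        (𝓝 (Pool.Agent.H82.NP.sq G' z)) := by
      rw [sq_kkt hK' hz]
      have h2 : (fun k => Pool.Agent.H82.NP.sq (G (φ k)) z)
          = fun k => TP n (Pool.Agent.H82.NP.ker n (c (φ k))) z := by
        funext k
        exact sq_kkt (hK (φ k)) hz
      rw [h2]
      unfold TP
      apply Tendsto.add
      · exact (Complex.continuous_re.tendsto _).comp (hkerl 0)
      · apply Tendsto.const_mul
        apply tendsto_finsetSum
        intro j _
        apply (Complex.continuous_re.tendsto _).comp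
        apply Tendsto.mul_const
        exact (Complex.continuous_conj.tendsto _).comp (hkerl j)
    exact tendsto_nhds_unique h1 h3
  have hdvd : G' ∣ H := by
    apply dvd_of_roots hG'0 hder' _ hH0
    intro z hz
    have h1 := hHsq z (hroot' z hz)
    unfold Pool.Agent.H82.NP.sq at h1
    rw [hz, norm_zero] at h1
    have h2 : ‖H.eval z‖ ^ 2 = 0 := by rw [h1]; norm_num
    exact norm_eq_zero.mp (pow_eq_zero_iff (by norm_num) |>.mp h2)
  obtain ⟨Q, hQ⟩ := hdvd
  have hQ0 : Q ≠ 0 := by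
    intro h
    rw [h, mul_zero] at hQ
    exact hH0 hQ
  have hQd : Q.natDegree = 0 ∧ H.natDegree = n := by
    have h1 : H.natDegree = G'.natDegree + Q.natDegree := by
      rw [hQ, natDegree_mul hG'0 hQ0]
    omega
  obtain ⟨q, hq⟩ : ∃ q : ℂ, Q = C q := ⟨Q.coeff 0, eq_C_of_natDegree_eq_zero hQd.1⟩
  have hq0 : q ≠ 0 := by
    intro h
    rw [h, C_0] at hq
    exact hQ0 hq
  have hHsimple : Simple H := by
    intro z hz
    rw [hQ, hq, eval_mul, eval_C] at hz
    have hz' : G'.eval z = 0 := by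
      rcases mul_eq_zero.mp hz with h | h
      · exact h
      · exact absurd h hq0
    refine ⟨hroot' z hz', ?_⟩
    rw [hQ, hq, derivative_mul, derivative_C, mul_zero, add_zero, eval_mul, eval_C]
    exact mul_ne_zero (hder' z hz') hq0
  have hsumr : ∀ k, ∑ i, r k i ≤ K := by
    intro k
    have h1 := (hK k).c0
    have h2 := lam_nonpos (hean k) (hK k)
    have h3 : s k * (lam k 0).re ≤ 0 := mul_nonpos_of_nonneg_of_nonpos (hspos k).le h2
    have h4 : -(c k 0).re ≤ ‖c k 0‖ := by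
      have := Complex.abs_re_le_norm (c k 0)
      have h5 := neg_abs_le (c k 0).re
      linarith
    have h5 := hcK k 0
    linarith
  have hev := hLOC n (fun k => s (φ k)) (fun k => c (φ k)) (fun k => G (φ k)) H
    (fun k => lam (φ k)) (fun k => m (φ k)) (fun k => r (φ k)) (fun k => ζ (φ k)) K hn
    (fun k => hshalf _) (fun k => hs2 _) (fun k => hK (φ k)) (fun k => hsumr (φ k))
    (fun j => by rw [hHc]; exact hglj j) hQd.2 hHsimple
  obtain ⟨k, hk1, hk2⟩ := hev.exists
  have hENk := hEN n (G (φ k)) hn hk1 hk2 (hnrm (φ k))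
  have hvn := vv_nonneg n (G (φ k))
  have h2 : (0 : ℝ) < 2 / (3 * (n : ℝ)) := by positivity
  have h3 : 0 ≤ 2 / (3 * (n : ℝ)) * vv n (G (φ k)) := mul_nonneg h2.le hvn
  have h4 := hent (φ k)
  have hvk : vv n (G (φ k)) ≤ 0 := by
    by_contra h3
    push Not at h3
    have := mul_pos h2 h3
    linarith
  obtain ⟨_, j, hj1, hj2, hj3⟩ := hv (φ k) (by linarith)
  apply hj3
  rw [← (hK (φ k)).ker_eq j hj2.le]
  unfold ac
  apply Finset.sum_eq_zero
  intro i hi
  rw [Finset.mem_range] at hi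
  rcases Nat.eq_zero_or_pos i with h0 | h0
  · subst h0
    rw [zero_add, coeff_of_vv hvk hj1 hj2, map_zero, mul_zero]
  · rcases Nat.lt_or_ge i n with h5 | h5
    · rw [coeff_of_vv hvk h0 h5, zero_mul]
    · rw [coeff_eq_zero_of_natDegree_lt (p := G (φ k)) (n := i + j) (by omega), map_zero, mul_zero]

end Pool.Agent.H42.NP
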